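import Mathlib

/-!
# Dope matrices: triples `(0, 1, z)` with `z` real quadratic
-/

set_option autoImplicit false

namespace Pool.Agent.H94.Dope.RealQuadratic

open Polynomial

/-- The dope matrix of `P` (columns `0, ..., n`) for the triple `L`: entry `(i, j)` says that the
`j`-th derivative of `P` vanishes at `L i`. -/
def dope (n : ℕ) (L : Fin 3 → ℂ) (P : ℂ[X]) : Fin 3 → Fin (n + 1) → Prop :=
  fun i j => (derivative^[(j : ℕ)] P).eval (L i) = 0

/-- All dope matrices of polynomials of degree exactly `n`. -/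
def dopeSet (n : ℕ) (L : Fin 3 → ℂ) : Set (Fin 3 → Fin (n + 1) → Prop) :=
  {M | ∃ P : ℂ[X], P ≠ 0 ∧ P.natDegree = n ∧ M = dope n L P}

/-- Equivalence of triples. -/
def Equivalent (L L' : Fin 3 → ℂ) : Prop := ∀ n : ℕ, dopeSet n L = dopeSet n L'

/-! ### Derivatives of three-term polynomials -/

theorem eval_formula (M y : ℕ) (hy1 : 1 ≤ y) (hy : y ≤ M + 2) (α β γ x : ℂ) :
    (y.factorial : ℂ) * x ^ 2 *
      (derivative^[M + 2 - y] (C α * X ^ (M + 2) + C β * X ^ (M + 1) + C γ * X ^ M)).eval x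
    = x ^ y * (((M + 2).factorial : ℂ) * α * x ^ 2 + ((M + 1).factorial : ℂ) * β * y * x +
        (M.factorial : ℂ) * γ * (y * (y - 1))) := by
  rw [iterate_map_add, iterate_map_add, iterate_derivative_C_mul,
    iterate_derivative_C_mul, iterate_derivative_C_mul, iterate_derivative_X_pow_eq_natCast_mul,
    iterate_derivative_X_pow_eq_natCast_mul, iterate_derivative_X_pow_eq_natCast_mul]
  simp only [eval_add, eval_mul, eval_C, eval_natCast, eval_pow, eval_X]
  obtain ⟨k, rfl⟩ : ∃ k, y = k + 1 := ⟨y - 1, by omega⟩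
  have e1 : ((k + 1).factorial * (M + 2).descFactorial (M + 2 - (k + 1)) : ℕ) =
      (M + 2).factorial := by
    have := Nat.factorial_mul_descFactorial (n := M + 2) (k := M + 2 - (k + 1)) (by omega)
    rwa [show M + 2 - (M + 2 - (k + 1)) = k + 1 by omega] at this
  have e2 : ((k).factorial * (M + 1).descFactorial (M + 2 - (k + 1)) : ℕ) =
      (M + 1).factorial := by
    have := Nat.factorial_mul_descFactorial (n := M + 1) (k := M + 2 - (k + 1)) (by omega)
    rwa [show M + 1 - (M + 2 - (k + 1)) = k by omega] at this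
  rw [show M + 2 - (M + 2 - (k + 1)) = k + 1 by omega,
    show M + 1 - (M + 2 - (k + 1)) = k by omega]
  have e1' : ((k + 1).factorial : ℂ) * ((M + 2).descFactorial (M + 2 - (k + 1)) : ℂ) =
      ((M + 2).factorial : ℂ) := by exact_mod_cast e1
  have e2' : ((k).factorial : ℂ) * ((M + 1).descFactorial (M + 2 - (k + 1)) : ℂ) =
      ((M + 1).factorial : ℂ) := by exact_mod_cast e2
  have f1 : ((k + 1).factorial : ℂ) = (k + 1) * (k.factorial : ℂ) := by
    rw [Nat.factorial_succ]; push_cast; ring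
  rcases Nat.eq_zero_or_pos k with hk | hk
  · subst hk
    have e3 : M.descFactorial (M + 2 - (0 + 1)) = 0 := by
      rw [Nat.descFactorial_eq_zero_iff_lt]; omega
    rw [e3, ← e1', ← e2']
    simp
    ring
  · obtain ⟨l, rfl⟩ : ∃ l, k = l + 1 := ⟨k - 1, by omega⟩
    have e3 : ((l).factorial * M.descFactorial (M + 2 - (l + 1 + 1)) : ℕ) =
        M.factorial := by
      have := Nat.factorial_mul_descFactorial (n := M) (k := M + 2 - (l + 1 + 1)) (by omega)
      rwa [show M - (M + 2 - (l + 1 + 1)) = l by omega] at this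
    rw [show M - (M + 2 - (l + 1 + 1)) = l by omega]
    have e3' : ((l).factorial : ℂ) * (M.descFactorial (M + 2 - (l + 1 + 1)) : ℂ) =
        (M.factorial : ℂ) := by exact_mod_cast e3
    have f2 : ((l + 1).factorial : ℂ) = (l + 1) * (l.factorial : ℂ) := by
      rw [Nat.factorial_succ]; push_cast; ring
    rw [← e1', ← e2', ← e3', f1, f2]
    push_cast
    ring

theorem three_term {M : ℕ} {R : ℂ[X]} (hR : R ≠ 0) (hd : R.natDegree = M + 2)
    (h0 : ∀ j < M, (derivative^[j] R).eval 0 = 0) :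
    ∃ α β γ : ℂ, α ≠ 0 ∧ R = C α * X ^ (M + 2) + C β * X ^ (M + 1) + C γ * X ^ M := by
  have hc : ∀ j < M, R.coeff j = 0 := by
    intro j hj
    have := h0 j hj
    rw [← coeff_zero_eq_eval_zero, coeff_iterate_derivative] at this
    simp only [zero_add, nsmul_eq_mul, mul_eq_zero, Nat.cast_eq_zero,
      Nat.descFactorial_eq_zero_iff_lt, lt_self_iff_false, false_or] at this
    exact this
  refine ⟨R.coeff (M + 2), R.coeff (M + 1), R.coeff M, ?_, ?_⟩
  · rw [← hd]
    exact leadingCoeff_ne_zero.2 hR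
  · ext j
    simp only [coeff_add, coeff_C_mul, coeff_X_pow]
    rcases lt_or_ge j M with h | h
    · rw [hc j h]
      simp [show j ≠ M + 2 by omega, show j ≠ M + 1 by omega, show j ≠ M by omega]
    · rcases lt_or_ge (M + 2) j with h' | h'
      · rw [coeff_eq_zero_of_natDegree_lt (by omega)]
        simp [show j ≠ M + 2 by omega, show j ≠ M + 1 by omega, show j ≠ M by omega]
      · obtain rfl | rfl | rfl : j = M ∨ j = M + 1 ∨ j = M + 2 := by omega
        · simp
        · simp
        · simp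

theorem iter_comp (P : ℂ[X]) (p s : ℂ) (j : ℕ) :
    derivative^[j] (P.comp (C p + C s * X)) =
      C (s ^ j) * (derivative^[j] P).comp (C p + C s * X) := by
  induction j with
  | zero => simp
  | succ j ih =>
    rw [Function.iterate_succ_apply', ih, derivative_C_mul, derivative_comp,
      Function.iterate_succ_apply']
    simp only [derivative_add, derivative_C, derivative_mul, derivative_X, zero_add, zero_mul,
      mul_one]
    rw [pow_succ, C_mul]
    ring

theorem eval_iter_comp (P : ℂ[X]) (p s t : ℂ) (j : ℕ) :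
    (derivative^[j] (P.comp (C p + C s * X))).eval t =
      s ^ j * (derivative^[j] P).eval (p + s * t) := by
  rw [iter_comp, eval_mul, eval_C, eval_comp]
  simp

theorem natDegree_comp_lin (P : ℂ[X]) (p s : ℂ) (hs : s ≠ 0) :
    (P.comp (C p + C s * X)).natDegree = P.natDegree := by
  rw [natDegree_comp]
  have : (C p + C s * X : ℂ[X]).natDegree = 1 := by
    rw [add_comm]; exact natDegree_linear hs
  rw [this, mul_one]

theorem comp_lin_ne_zero {P : ℂ[X]} (hP : P ≠ 0) (p s : ℂ) (hs : s ≠ 0) :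
    P.comp (C p + C s * X) ≠ 0 := by
  intro h
  have hd := natDegree_comp_lin P p s hs
  rw [h, natDegree_zero] at hd
  obtain ⟨c, rfl⟩ : ∃ c, P = C c := ⟨P.coeff 0, eq_C_of_natDegree_eq_zero hd.symm⟩
  rw [C_comp] at h
  exact hP h

/-! ### Transfer of a pattern -/

theorem transfer {L L' : Fin 3 → ℂ} (hE : Equivalent L L') (i0 i1 i2 : Fin 3)
    (h1 : L i1 ≠ L i0) (h2 : L i2 ≠ L i0) (h1' : L' i1 ≠ L' i0) (h2' : L' i2 ≠ L' i0)
    {a b c : ℤ} {t y1 y2 : ℕ} (hc : 0 < c) (ht : 0 < t) (hy : y1 ≠ y2)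
    (hy1 : 1 ≤ y1) (hy2 : 1 ≤ y2)
    (hs : (y1 + y2 : ℤ) = 1 + b * t) (hq : (y1 * y2 : ℤ) = a * t * (c * t + 1))
    (hμ : (a : ℂ) * ((L i2 - L i0) / (L i1 - L i0)) ^ 2 -
      b * ((L i2 - L i0) / (L i1 - L i0)) + c = 0) :
    (a : ℂ) * ((L' i2 - L' i0) / (L' i1 - L' i0)) ^ 2 -
      b * ((L' i2 - L' i0) / (L' i1 - L' i0)) + c = 0 := by
  set s : ℂ := L i1 - L i0 with hsdef
  set s' : ℂ := L' i1 - L' i0 with hs'def
  have s0 : s ≠ 0 := sub_ne_zero.2 h1
  have s0' : s' ≠ 0 := sub_ne_zero.2 h1'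
  set μ : ℂ := (L i2 - L i0) / s with hμdef
  set μ' : ℂ := (L' i2 - L' i0) / s' with hμ'def
  have μ0 : μ ≠ 0 := div_ne_zero (sub_ne_zero.2 h2) s0
  have μ0' : μ' ≠ 0 := div_ne_zero (sub_ne_zero.2 h2') s0'
  obtain ⟨z, hz⟩ : ∃ z : ℕ, (z : ℤ) = c * t + 1 := by
    refine ⟨(c * t + 1).toNat, ?_⟩
    rw [Int.toNat_of_nonneg (by positivity)]
  have hz1 : 1 ≤ z := by
    have : (0 : ℤ) < z := by rw [hz]; positivity
    omega
  -- complex versions of the relations
  have hsC : (y1 : ℂ) + y2 = 1 + b * t := by exact_mod_cast hs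
  have hqC : (y1 : ℂ) * y2 = a * t * z := by
    have : (y1 * y2 : ℤ) = a * t * z := by rw [hq, hz]
    exact_mod_cast this
  have hzC : (z : ℂ) = c * t + 1 := by exact_mod_cast hz
  have hy1C : (y1 : ℂ) ≠ 0 := by exact_mod_cast (by omega : y1 ≠ 0)
  have hy2C : (y2 : ℂ) ≠ 0 := by exact_mod_cast (by omega : y2 ≠ 0)
  have hyC : (y1 : ℂ) - y2 ≠ 0 := by
    rw [sub_ne_zero]; exact_mod_cast hy
  have htC : (t : ℂ) ≠ 0 := by exact_mod_cast (by omega : t ≠ 0)
  have hz0C : (z : ℂ) ≠ 0 := by exact_mod_cast (by omega : z ≠ 0)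
  set M : ℕ := y1 + y2 + z with hM
  have fM : (M.factorial : ℂ) ≠ 0 := by exact_mod_cast M.factorial_ne_zero
  have fM1 : ((M + 1).factorial : ℂ) ≠ 0 := by exact_mod_cast (M + 1).factorial_ne_zero
  have fM2 : ((M + 2).factorial : ℂ) ≠ 0 := by exact_mod_cast (M + 2).factorial_ne_zero
  set α : ℂ := (y1 * y2) / ((M + 2).factorial : ℂ) with hα
  set β : ℂ := -(b * t) / ((M + 1).factorial : ℂ) with hβ
  set γ : ℂ := 1 / (M.factorial : ℂ) with hγ
  have hα' : ((M + 2).factorial : ℂ) * α = y1 * y2 := by rw [hα]; field_simp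
  have hβ' : ((M + 1).factorial : ℂ) * β = -(b * t) := by rw [hβ]; field_simp
  have hγ' : (M.factorial : ℂ) * γ = 1 := by rw [hγ]; field_simp
  have hα0 : α ≠ 0 := by rw [hα]; exact div_ne_zero (mul_ne_zero hy1C hy2C) fM2
  set R : ℂ[X] := C α * X ^ (M + 2) + C β * X ^ (M + 1) + C γ * X ^ M with hR
  have hcoef : ∀ j, R.coeff j = (if j = M + 2 then α else 0) + (if j = M + 1 then β else 0) +
      (if j = M then γ else 0) := by
    intro j
    simp only [hR, coeff_add, coeff_C_mul, coeff_X_pow, mul_ite, mul_one, mul_zero]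
  have hRd : R.natDegree = M + 2 := by
    apply natDegree_eq_of_le_of_coeff_ne_zero
    · rw [natDegree_le_iff_coeff_eq_zero]
      intro j hj
      rw [hcoef]
      simp [show j ≠ M + 2 by omega, show j ≠ M + 1 by omega, show j ≠ M by omega]
    · rw [hcoef]
      simp [hα0]
  have hR0 : R ≠ 0 := by
    intro h; rw [h, natDegree_zero] at hRd; omega
  -- vanishing of derivatives of R
  have hRzero : ∀ j < M, (derivative^[j] R).eval 0 = 0 := by
    intro j hj
    rw [← coeff_zero_eq_eval_zero, coeff_iterate_derivative, hcoef]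
    simp [show j ≠ M + 2 by omega, show j ≠ M + 1 by omega, show j ≠ M by omega]
  have hRone : ∀ y : ℕ, (y = y1 ∨ y = y2) → (derivative^[M + 2 - y] R).eval 1 = 0 := by
    intro y hyy
    have hy' : 1 ≤ y ∧ y ≤ M + 2 := by omega
    have := eval_formula M y hy'.1 hy'.2 α β γ 1
    rw [hα', hβ', hγ'] at this
    have hfy : (y.factorial : ℂ) ≠ 0 := by exact_mod_cast y.factorial_ne_zero
    have hz' : (y1 : ℂ) * y2 * 1 ^ 2 + -(b * t) * y * 1 + 1 * (y * (y - 1)) = 0 := by
      have e : (b : ℂ) * t = y1 + y2 - 1 := by rw [hsC]; ring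
      rw [e]
      rcases hyy with rfl | rfl <;> ring
    rw [hz', mul_zero, mul_eq_zero] at this
    rcases this with h | h
    · exact absurd h (by simp [hfy])
    · exact h
  have hRmu : (derivative^[M + 2 - z] R).eval μ = 0 := by
    have := eval_formula M z hz1 (by omega) α β γ μ
    rw [hα', hβ', hγ'] at this
    have hfz : (z.factorial : ℂ) ≠ 0 := by exact_mod_cast z.factorial_ne_zero
    have hz' : (y1 : ℂ) * y2 * μ ^ 2 + -(b * t) * z * μ + 1 * (z * (z - 1)) = 0 := by
      have e : (z : ℂ) - 1 = c * t := by rw [hzC]; ring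
      rw [hqC, e]
      linear_combination (t : ℂ) * z * hμ
    rw [hz', mul_zero, mul_eq_zero] at this
    rcases this with h | h
    · exact absurd h (mul_ne_zero hfz (pow_ne_zero _ μ0))
    · exact h
  -- the polynomial P
  set P : ℂ[X] := R.comp (C (-L i0 / s) + C (1 / s) * X) with hP
  have hs1 : (1 / s : ℂ) ≠ 0 := one_div_ne_zero s0
  have hP0 : P ≠ 0 := comp_lin_ne_zero hR0 _ _ hs1
  have hPd : P.natDegree = M + 2 := by rw [hP, natDegree_comp_lin _ _ _ hs1, hRd]
  have hPeval : ∀ (j : ℕ) (x : ℂ), (derivative^[j] P).eval x =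
      (1 / s) ^ j * (derivative^[j] R).eval ((x - L i0) / s) := by
    intro j x
    rw [hP, eval_iter_comp]
    congr 2
    field_simp
    ring
  have hmem : dope (M + 2) L P ∈ dopeSet (M + 2) L := ⟨P, hP0, hPd, rfl⟩
  rw [hE (M + 2)] at hmem
  obtain ⟨P', hP'0, hP'd, hPP'⟩ := hmem
  have key : ∀ (i : Fin 3) (j : ℕ), j ≤ M + 2 → (derivative^[j] P).eval (L i) = 0 →
      (derivative^[j] P').eval (L' i) = 0 := by
    intro i j hj h
    have := congrFun (congrFun hPP' i) ⟨j, by omega⟩
    simp only [dope] at this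
    exact this.mp h
  set R' : ℂ[X] := P'.comp (C (L' i0) + C s' * X) with hR'
  have hR'0 : R' ≠ 0 := comp_lin_ne_zero hP'0 _ _ s0'
  have hR'd : R'.natDegree = M + 2 := by rw [hR', natDegree_comp_lin _ _ _ s0', hP'd]
  have hR'eval : ∀ (j : ℕ) (x : ℂ), (derivative^[j] R').eval x =
      s' ^ j * (derivative^[j] P').eval (L' i0 + s' * x) := by
    intro j x; rw [hR', eval_iter_comp]
  have hR'zero : ∀ j < M, (derivative^[j] R').eval 0 = 0 := by
    intro j hj
    rw [hR'eval, mul_zero, add_zero, key i0 j (by omega), mul_zero]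
    rw [hPeval, sub_self, zero_div, hRzero j hj, mul_zero]
  have hR'one : ∀ y : ℕ, (y = y1 ∨ y = y2) → (derivative^[M + 2 - y] R').eval 1 = 0 := by
    intro y hyy
    rw [hR'eval, show L' i0 + s' * 1 = L' i1 by rw [hs'def]; ring, key i1 _ (by omega), mul_zero]
    rw [hPeval, ← hsdef, div_self s0, hRone y hyy, mul_zero]
  have hR'mu : (derivative^[M + 2 - z] R').eval μ' = 0 := by
    rw [hR'eval, show L' i0 + s' * μ' = L' i2 by rw [hμ'def]; field_simp; ring,
      key i2 _ (by omega), mul_zero]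
    rw [hPeval, ← hμdef, hRmu, mul_zero]
  obtain ⟨α₂, β₂, γ₂, hα₂, hform⟩ := three_term hR'0 hR'd hR'zero
  rw [hform] at hR'one hR'mu
  have eqy : ∀ y : ℕ, (y = y1 ∨ y = y2) →
      ((M + 2).factorial : ℂ) * α₂ + ((M + 1).factorial : ℂ) * β₂ * y +
        (M.factorial : ℂ) * γ₂ * (y * (y - 1)) = 0 := by
    intro y hyy
    have := eval_formula M y (by omega) (by omega) α₂ β₂ γ₂ 1
    rw [hR'one y hyy] at this
    simp only [one_pow, mul_one, mul_zero, one_mul] at this
    exact this.symm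
  have eqz : ((M + 2).factorial : ℂ) * α₂ * μ' ^ 2 + ((M + 1).factorial : ℂ) * β₂ * z * μ' +
        (M.factorial : ℂ) * γ₂ * (z * (z - 1)) = 0 := by
    have := eval_formula M z hz1 (by omega) α₂ β₂ γ₂ μ'
    rw [hR'mu, mul_zero] at this
    rcases mul_eq_zero.1 this.symm with h | h
    · exact absurd h (pow_ne_zero _ μ0')
    · exact h
  set A : ℂ := ((M + 2).factorial : ℂ) * α₂
  set B : ℂ := ((M + 1).factorial : ℂ) * β₂
  set Γ : ℂ := (M.factorial : ℂ) * γ₂
  have hA0 : A ≠ 0 := mul_ne_zero fM2 hα₂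
  have E1 := eqy y1 (Or.inl rfl)
  have E2 := eqy y2 (Or.inr rfl)
  have hB : B = -Γ * (b * t) := by
    have : ((y1 : ℂ) - y2) * (B + Γ * (y1 + y2 - 1)) = 0 := by linear_combination E1 - E2
    have h' := (mul_eq_zero.1 this).resolve_left hyC
    rw [hsC] at h'
    linear_combination h'
  have hAq : A = Γ * (a * t * z) := by
    rw [← hqC]
    have hb : (b : ℂ) * t = y1 + y2 - 1 := by rw [hsC]; ring
    rw [hB, hb] at E1
    linear_combination E1
  have hΓ0 : Γ ≠ 0 := by
    intro h; rw [h, zero_mul] at hAq; exact hA0 hAq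
  rw [hAq, hB, show (z : ℂ) - 1 = c * t by rw [hzC]; ring] at eqz
  have : Γ * (t * z) * ((a : ℂ) * μ' ^ 2 - b * μ' + c) = 0 := by linear_combination eqz
  exact (mul_eq_zero.1 this).resolve_left (mul_ne_zero hΓ0 (mul_ne_zero htC hz0C))


/-! ### Pell equation -/

theorem pell {a b c : ℤ} (ha : 0 < a) (hb : 0 < b) (hc : 0 < c) (hsq : ¬ IsSquare (b ^ 2 - 4 * a * c))
    (hpos : 0 < b ^ 2 - 4 * a * c)
    (hI : 2 * a ≤ b ∨ (b - 2 * a) ^ 2 < b ^ 2 - 4 * a * c) :
    ∃ t y1 y2 : ℕ, 0 < t ∧ y1 ≠ y2 ∧ 1 ≤ y1 ∧ 1 ≤ y2 ∧ (y1 + y2 : ℤ) = 1 + b * t ∧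
      (y1 * y2 : ℤ) = a * t * (c * t + 1) := by
  obtain ⟨p', q', hpq', hq'⟩ := Pell.exists_of_not_isSquare hpos hsq
  obtain ⟨p, q, hp, hq, hpq⟩ : ∃ p q : ℤ, 0 < p ∧ 0 < q ∧
      p ^ 2 - (b ^ 2 - 4 * a * c) * q ^ 2 = 1 := by
    refine ⟨|p'|, |q'|, ?_, abs_pos.2 hq', by rw [sq_abs, sq_abs]; exact hpq'⟩
    rw [abs_pos]
    rintro rfl
    nlinarith [sq_nonneg q', mul_nonneg hpos.le (sq_nonneg q')]
  set δ : ℤ := b ^ 2 - 4 * a * c with hδ
  set B : ℤ := b - 2 * a with hB
  have hw : 0 < q * B + p := by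
    rcases hI with h | h
    · have : 0 ≤ B := by rw [hB]; omega
      positivity
    · by_contra hcon
      push Not at hcon
      have h1 : p ≤ -(q * B) := by linarith
      have h2 : p ^ 2 ≤ (q * B) ^ 2 := by nlinarith
      have h3 : (q * B) ^ 2 < q ^ 2 * δ := by
        rw [mul_pow]
        exact mul_lt_mul_of_pos_left h (by positivity)
      nlinarith
  set t : ℤ := 2 * q * (q * B + p) with ht
  have ht0 : 0 < t := by positivity
  set e : ℤ := 2 * (q * (p * B + δ * q)) + 1 with he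
  have he2 : δ * t ^ 2 + 2 * B * t + 1 = e ^ 2 := by
    have hp2 : p ^ 2 = 1 + δ * q ^ 2 := by linarith
    rw [ht, he]
    linear_combination (4 * q ^ 2 * δ - 4 * q ^ 2 * B ^ 2) * hp2
  have hs2 : e ^ 2 = (1 + b * t) ^ 2 - 4 * (a * t * (c * t + 1)) := by
    rw [← he2, hδ, hB]; ring
  set E : ℤ := |e| with hE
  have hE2 : E ^ 2 = (1 + b * t) ^ 2 - 4 * (a * t * (c * t + 1)) := by rw [hE, sq_abs, hs2]
  have hE0 : 0 < E := by
    rw [hE, abs_pos]; omega
  have hQ : 0 < a * t * (c * t + 1) := by positivity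
  have hS : 0 < 1 + b * t := by positivity
  have hES : E < 1 + b * t := by nlinarith
  -- parity
  have hpar : Even (1 + b * t + E) := by
    have h1 : Even ((1 + b * t + E) * (1 + b * t - E)) := by
      have : (1 + b * t + E) * (1 + b * t - E) = 4 * (a * t * (c * t + 1)) := by
        linear_combination -hE2
      rw [this]
      exact ⟨2 * (a * t * (c * t + 1)), by ring⟩
    rcases Int.even_mul.1 h1 with h | h
    · exact h
    · have : (1 + b * t + E) = (1 + b * t - E) + 2 * E := by ring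
      rw [this]
      exact h.add (even_two_mul E)
  obtain ⟨Y, hY⟩ := hpar
  have hY1 : 0 < Y := by omega
  have hY2 : 0 < 1 + b * t - Y := by omega
  refine ⟨t.toNat, Y.toNat, (1 + b * t - Y).toNat, by omega, ?_, by omega, by omega, ?_, ?_⟩
  · intro h
    have : Y = 1 + b * t - Y := by
      have h1 : (Y.toNat : ℤ) = Y := Int.toNat_of_nonneg hY1.le
      have h2 : ((1 + b * t - Y).toNat : ℤ) = 1 + b * t - Y := Int.toNat_of_nonneg hY2.le
      have h3 := congrArg (fun n : ℕ => (n : ℤ)) h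
      rw [h1, h2] at h3
      omega
    omega
  · rw [Int.toNat_of_nonneg hY1.le, Int.toNat_of_nonneg hY2.le, Int.toNat_of_nonneg ht0.le]
    ring
  · rw [Int.toNat_of_nonneg hY1.le, Int.toNat_of_nonneg hY2.le, Int.toNat_of_nonneg ht0.le]
    have hYe : 2 * Y = 1 + b * t + E := by linarith
    have : 4 * (Y * (1 + b * t - Y)) = 4 * (a * t * (c * t + 1)) := by
      have e1 : 4 * (Y * (1 + b * t - Y)) = (2 * Y) * (2 * (1 + b * t) - 2 * Y) := by ring
      rw [e1, hYe]
      linear_combination -hE2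
    linarith


/-! ### The theorem for an integral equation -/

theorem main_int {z z' : ℂ} (hz0 : z ≠ 0) (hz1 : z ≠ 1) (hz0' : z' ≠ 0) (hz1' : z' ≠ 1)
    (hE : Equivalent ![0, 1, z] ![0, 1, z']) {A B C : ℤ} (hA : 0 < A)
    (hsq : ¬ IsSquare (B ^ 2 - 4 * A * C)) (hpos : 0 < B ^ 2 - 4 * A * C)
    (hg : (A : ℂ) * z ^ 2 + B * z + C = 0) : (A : ℂ) * z' ^ 2 + B * z' + C = 0 := by
  have hC0 : C ≠ 0 := by
    rintro rfl
    exact hsq ⟨B, by ring⟩
  have hg10 : A + B + C ≠ 0 := by
    intro h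
    have : B = -A - C := by linarith
    exact hsq ⟨A - C, by rw [this]; ring⟩
  have z1 : z - 1 ≠ 0 := sub_ne_zero.2 hz1
  have z1' : z' - 1 ≠ 0 := sub_ne_zero.2 hz1'
  have L0 : (![0, 1, z] : Fin 3 → ℂ) 0 = 0 := rfl
  have L1 : (![0, 1, z] : Fin 3 → ℂ) 1 = 1 := rfl
  have L2 : (![0, 1, z] : Fin 3 → ℂ) 2 = z := rfl
  have L0' : (![0, 1, z'] : Fin 3 → ℂ) 0 = 0 := rfl
  have L1' : (![0, 1, z'] : Fin 3 → ℂ) 1 = 1 := rfl
  have L2' : (![0, 1, z'] : Fin 3 → ℂ) 2 = z' := rfl
  -- the reflected case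
  have caseR : 0 < A + B + C → 0 < 2 * A + B →
      (2 * A ≤ 2 * A + B ∨ (2 * A + B - 2 * A) ^ 2 < B ^ 2 - 4 * A * C) →
      (A : ℂ) * z' ^ 2 + B * z' + C = 0 := by
    intro h1 h2 h3
    have hdisc : (2 * A + B) ^ 2 - 4 * A * (A + B + C) = B ^ 2 - 4 * A * C := by ring
    obtain ⟨t, y1, y2, ht, hy, hy1, hy2, hs, hq⟩ := pell hA h2 h1 (by rw [hdisc]; exact hsq)
      (by rw [hdisc]; exact hpos) (by rw [hdisc]; exact h3)
    have := transfer hE 1 0 2 (by rw [L0, L1]; exact zero_ne_one) (by rw [L1, L2]; exact hz1)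
      (by rw [L0', L1']; exact zero_ne_one) (by rw [L1', L2']; exact hz1') h1 ht hy hy1 hy2 hs hq
      (by
        rw [L0, L1, L2, zero_sub, div_neg, div_one]
        push_cast
        linear_combination hg)
    rw [L0', L1', L2', zero_sub, div_neg, div_one] at this
    push_cast at this
    linear_combination this
  rcases lt_or_gt_of_ne hC0 with hC | hC
  · rcases lt_or_gt_of_ne hg10 with hg1 | hg1
    · -- one root negative, the other larger than one
      have hb : 0 < -B - 2 * C := by linarith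
      have hdisc : (-B - 2 * C) ^ 2 - 4 * (-C) * (-(A + B + C)) = B ^ 2 - 4 * A * C := by ring
      obtain ⟨t, y1, y2, ht, hy, hy1, hy2, hs, hq⟩ := pell (a := -C) (b := -B - 2 * C)
        (c := -(A + B + C)) (by linarith) hb (by linarith) (by rw [hdisc]; exact hsq)
        (by rw [hdisc]; exact hpos) (by
          right
          rw [hdisc]
          nlinarith [mul_pos hA (neg_pos.2 hC)])
      have := transfer hE 2 0 1 (by rw [L0, L2]; exact hz0.symm) (by rw [L1, L2]; exact hz1.symm)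
        (by rw [L0', L2']; exact hz0'.symm) (by rw [L1', L2']; exact hz1'.symm)
        (by linarith) ht hy hy1 hy2 hs hq
        (by
          rw [L0, L1, L2, zero_sub]
          push_cast
          field_simp
          linear_combination -hg)
      rw [L0', L1', L2', zero_sub] at this
      push_cast at this
      field_simp at this
      linear_combination -this
    · exact caseR hg1 (by linarith) (Or.inr (by nlinarith [mul_pos hA (neg_pos.2 hC)]))
  · rcases lt_or_ge B 0 with hB | hB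
    · by_cases hI : 2 * A ≤ -B ∨ (-B - 2 * A) ^ 2 < B ^ 2 - 4 * A * C
      · have hdisc : (-B) ^ 2 - 4 * A * C = B ^ 2 - 4 * A * C := by ring
        obtain ⟨t, y1, y2, ht, hy, hy1, hy2, hs, hq⟩ := pell (a := A) (b := -B)
          (c := C) hA (by linarith) hC (by rw [hdisc]; exact hsq)
          (by rw [hdisc]; exact hpos) (by rw [hdisc]; exact hI)
        have := transfer hE 0 1 2 (by rw [L0, L1]; exact one_ne_zero) (by rw [L0, L2]; exact hz0)
          (by rw [L0', L1']; exact one_ne_zero) (by rw [L0', L2']; exact hz0')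
          hC ht hy hy1 hy2 hs hq
          (by
            rw [L0, L1, L2, sub_zero, sub_zero, div_one]
            push_cast
            linear_combination hg)
        rw [L0', L1', L2', sub_zero, sub_zero, div_one] at this
        push_cast at this
        linear_combination this
      · push Not at hI
        obtain ⟨hI1, hI2⟩ := hI
        have hdisc : (-B) ^ 2 - 4 * C * A = B ^ 2 - 4 * A * C := by ring
        have h2C : 2 * C ≤ -B := by nlinarith
        obtain ⟨t, y1, y2, ht, hy, hy1, hy2, hs, hq⟩ := pell (a := C) (b := -B)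
          (c := A) hC (by linarith) hA (by rw [hdisc]; exact hsq)
          (by rw [hdisc]; exact hpos) (Or.inl h2C)
        have := transfer hE 0 2 1 (by rw [L0, L2]; exact hz0) (by rw [L0, L1]; exact one_ne_zero)
          (by rw [L0', L2']; exact hz0') (by rw [L0', L1']; exact one_ne_zero)
          hA ht hy hy1 hy2 hs hq
          (by
            rw [L0, L1, L2, sub_zero, sub_zero]
            push_cast
            field_simp
            linear_combination hg)
        rw [L0', L1', L2', sub_zero, sub_zero] at this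
        push_cast at this
        field_simp at this
        linear_combination this
    · exact caseR (by linarith) (by linarith) (Or.inl (by linarith))

/-- If `z` is a real quadratic irrational number, then the triples `(0, 1, z)` and `(0, 1, z')` are
equivalent only if `z'` is algebraic and conjugate to `z`. -/
theorem result : ∀ z z' : ℂ, z ≠ 0 → z ≠ 1 → z' ≠ 0 → z' ≠ 1 → z.im = 0 →
    (minpoly ℚ z).natDegree = 2 → Equivalent ![0, 1, z] ![0, 1, z'] →
    IsAlgebraic ℚ z' ∧ minpoly ℚ z' = minpoly ℚ z := by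
  intro z z' hz0 hz1 hz0' hz1' him hdeg hE
  have hint : IsIntegral ℚ z := by
    by_contra h
    rw [minpoly.eq_zero h, natDegree_zero] at hdeg
    omega
  set p : ℚ[X] := minpoly ℚ z with hp
  have hmon : p.Monic := minpoly.monic hint
  have hirr : Irreducible p := minpoly.irreducible hint
  set u : ℚ := p.coeff 1 with hu
  set v : ℚ := p.coeff 0 with hv
  have hform : p = X ^ 2 + C u * X + C v := by
    have h2 : p.coeff 2 = 1 := by rw [← hdeg]; exact hmon
    have := p.as_sum_range_C_mul_X_pow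
    rw [hdeg] at this
    simp only [Finset.sum_range_succ, Finset.sum_range_zero, zero_add, pow_zero, mul_one,
      pow_one, h2, C_1, one_mul] at this
    rw [this]
    ring
  have heval : ∀ w : ℂ, aeval w p = w ^ 2 + (u : ℂ) * w + (v : ℂ) := by
    intro w
    rw [hform]
    simp
  have hz : z ^ 2 + (u : ℂ) * z + (v : ℂ) = 0 := by rw [← heval, hp, minpoly.aeval]
  set A : ℤ := (u.den * v.den : ℤ) with hA
  set B : ℤ := u.num * v.den with hB
  set D : ℤ := v.num * u.den with hD
  have hud : (u.den : ℂ) ≠ 0 := by exact_mod_cast u.den_nz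
  have hvd : (v.den : ℂ) ≠ 0 := by exact_mod_cast v.den_nz
  have hA0 : 0 < A := by
    rw [hA]
    have h1 := u.den_pos
    have h2 := v.den_pos
    positivity
  have hAC : (A : ℂ) = u.den * v.den := by rw [hA]; push_cast; ring
  have huC : (u : ℂ) = u.num / u.den := by exact_mod_cast (Rat.num_div_den u).symm
  have hvC : (v : ℂ) = v.num / v.den := by exact_mod_cast (Rat.num_div_den v).symm
  have hBC : (B : ℂ) = A * u := by
    rw [hAC, huC, hB]; push_cast; field_simp
  have hDC : (D : ℂ) = A * v := by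
    rw [hAC, hvC, hD]; push_cast; field_simp
  have hAC0 : (A : ℂ) ≠ 0 := by exact_mod_cast hA0.ne'
  have hg : (A : ℂ) * z ^ 2 + B * z + D = 0 := by
    rw [hBC, hDC]; linear_combination (A : ℂ) * hz
  have hsqz : (2 * (A : ℂ) * z + B) ^ 2 = ((B ^ 2 - 4 * A * D : ℤ) : ℂ) := by
    push_cast
    linear_combination 4 * (A : ℂ) * hg
  have hsq : ¬ IsSquare (B ^ 2 - 4 * A * D) := by
    rintro ⟨k, hk⟩
    rw [hk] at hsqz
    push_cast at hsqz
    have h0 : (2 * (A : ℂ) * z + B - k) * (2 * (A : ℂ) * z + B + k) = 0 := by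
      linear_combination hsqz
    have hrat : ∃ r : ℚ, z = (r : ℂ) := by
      rcases mul_eq_zero.1 h0 with h | h
      · refine ⟨(k - B) / (2 * A), ?_⟩
        push_cast
        field_simp
        linear_combination h
      · refine ⟨(-k - B) / (2 * A), ?_⟩
        push_cast
        field_simp
        linear_combination h
    obtain ⟨r, hr⟩ := hrat
    have : (minpoly ℚ z).natDegree = 1 := by
      rw [hr]
      have := minpoly.eq_X_sub_C (A := ℚ) ℂ r
      have h2 : (algebraMap ℚ ℂ) r = (r : ℂ) := rfl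
      rw [h2] at this
      rw [this]
      exact natDegree_X_sub_C r
    have h12 : (1 : ℕ) = 2 := this.symm.trans hdeg
    omega
  have hpos : 0 < B ^ 2 - 4 * A * D := by
    obtain ⟨x, hx⟩ : ∃ x : ℝ, z = (x : ℂ) := ⟨z.re, by
      apply Complex.ext
      · simp
      · simp [him]⟩
    rw [hx] at hsqz
    have hreal : (2 * (A : ℝ) * x + B) ^ 2 = ((B ^ 2 - 4 * A * D : ℤ) : ℝ) := by
      exact_mod_cast hsqz
    have h1 : (0 : ℝ) ≤ ((B ^ 2 - 4 * A * D : ℤ) : ℝ) := by rw [← hreal]; positivity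
    have h2 : (0 : ℤ) ≤ B ^ 2 - 4 * A * D := by exact_mod_cast h1
    rcases h2.lt_or_eq with h | h
    · exact h
    · exact absurd (h ▸ ⟨0, by simp⟩) hsq
  have hfin := main_int hz0 hz1 hz0' hz1' hE hA0 hsq hpos hg
  have hz' : z' ^ 2 + (u : ℂ) * z' + (v : ℂ) = 0 := by
    rw [hBC, hDC] at hfin
    have : (A : ℂ) * (z' ^ 2 + (u : ℂ) * z' + (v : ℂ)) = 0 := by linear_combination hfin
    exact (mul_eq_zero.1 this).resolve_left hAC0
  have hae : aeval z' p = 0 := by rw [heval, hz']
  refine ⟨⟨p, hmon.ne_zero, hae⟩, (minpoly.eq_of_irreducible_of_monic hirr hae hmon).symm⟩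

end Pool.Agent.H94.Dope.RealQuadratic
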